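import Mathlib
import Pool.Agent.LPU64.LogPerfect

set_option autoImplicit false

universe u v

namespace Pool.Agent.Results.MP_1dfe91_lc.LogicallyPerfect

open FirstOrder FirstOrder.Language MvPolynomial

/-! ### The signature of `Com-P` -/

/-- The function symbols of the signature of `P`-algebras: the constants `0` and `1`, the unary
operation of multiplication by `c` for every `c ∈ P`, and the binary operations `+` and `·`. -/
inductive AlgFunc (P : Type u) : ℕ → Type u
  | zero : AlgFunc P 0
  | one : AlgFunc P 0
  | smul (c : P) : AlgFunc P 1
  | add : AlgFunc P 2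
  | mul : AlgFunc P 2

/-- The signature of `Com-P`: no relation symbols (besides equality). -/
def algLang (P : Type u) : FirstOrder.Language.{u, 0} where
  Functions := AlgFunc P
  Relations := fun _ => Empty

/-- The interpretation of the symbols in a commutative unital `P`-algebra `H`. -/
instance algStructure (P : Type u) [Field P] (H : Type v) [CommRing H] [Algebra P H] :
    (algLang P).Structure H where
  funMap := fun f x =>
    match f, x with
    | AlgFunc.zero, _ => 0
    | AlgFunc.one, _ => 1
    | AlgFunc.smul c, x => c • x 0
    | AlgFunc.add, x => x 0 + x 1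
    | AlgFunc.mul, x => x 0 * x 1
  RelMap := fun r _ => r.elim

/-- The logical kernel of the point `μ : P[X] → H`: all first-order formulas in the signature of
`Com-P` with free variables in `X` that hold in `H` at the tuple `(μ x)_{x ∈ X}`. -/
def LKer (P : Type u) [Field P] (H : Type v) [CommRing H] [Algebra P H] {X : Type}
    (μ : MvPolynomial X P →ₐ[P] H) : Set ((algLang P).Formula X) :=
  {φ | φ.Realize (fun x => μ (MvPolynomial.X x))}

/-- `H` is logically homogeneous: for every finite `X`, two points have the same logical kernel if
and only if they are conjugate under an automorphism of the `P`-algebra `H`. -/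
def LogicallyHomogeneous (P : Type u) [Field P] (H : Type v) [CommRing H] [Algebra P H] : Prop :=
  ∀ (X : Type) [Finite X] (μ ν : MvPolynomial X P →ₐ[P] H),
    LKer P H μ = LKer P H ν ↔ ∃ σ : H ≃ₐ[P] H, μ = (σ : H →ₐ[P] H).comp ν

/-- The variety `Com-P` is logically perfect: every free algebra of finite rank is logically
homogeneous. -/
def IsLogicallyPerfect (P : Type u) [Field P] : Prop :=
  ∀ (Y : Type) [Finite Y], LogicallyHomogeneous P (MvPolynomial Y P)

/-! ### Isomorphisms preserve formulas -/

section iso

variable {P : Type u} [Field P] {H H' : Type v} [CommRing H] [Algebra P H] [CommRing H']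
  [Algebra P H']

/-- An isomorphism of `P`-algebras is an isomorphism of structures. -/
def toLEquiv (e : H ≃ₐ[P] H') : H ≃[algLang P] H' where
  toEquiv := e.toEquiv
  map_fun' := by
    intro n f x
    cases f with
    | zero => exact map_zero e
    | one => exact map_one e
    | smul c => exact map_smul e c (x 0)
    | add => exact map_add e (x 0) (x 1)
    | mul => exact map_mul e (x 0) (x 1)
  map_rel' := by
    intro n r x
    exact r.elim

theorem realize_iso (e : H ≃ₐ[P] H') {X : Type} (φ : (algLang P).Formula X) (a : X → H) :
    φ.Realize (fun x => e (a x)) ↔ φ.Realize a :=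
  StrongHomClass.realize_formula (toLEquiv e) φ

end iso

/-! ### Translation of formulas of the ring language with constants from `P` -/

section translation

attribute [local instance] FirstOrder.Ring.compatibleRingOfRing

variable (P : Type u) [Field P]

/-- A term of the ring language with constants from `P`, as a term in the signature of `Com-P`. -/
def trTerm {α γ : Type} : Language.ring.Term ((α ⊕ P) ⊕ γ) → (algLang P).Term (α ⊕ γ)
  | .var (Sum.inl (Sum.inl a)) => .var (Sum.inl a)
  | .var (Sum.inl (Sum.inr c)) =>
      .func (AlgFunc.smul c : (algLang P).Functions 1)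
        (fun _ => .func (AlgFunc.one : (algLang P).Functions 0) Fin.elim0)
  | .var (Sum.inr i) => .var (Sum.inr i)
  | .func (l := l) f ts =>
    match l, f, ts with
    | _, ringFunc.add, ts =>
        .func (AlgFunc.add : (algLang P).Functions 2) (fun i => trTerm (ts i))
    | _, ringFunc.mul, ts =>
        .func (AlgFunc.mul : (algLang P).Functions 2) (fun i => trTerm (ts i))
    | _, ringFunc.neg, ts =>
        .func (AlgFunc.smul (-1) : (algLang P).Functions 1) (fun i => trTerm (ts i))
    | _, ringFunc.zero, _ => .func (AlgFunc.zero : (algLang P).Functions 0) Fin.elim0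
    | _, ringFunc.one, _ => .func (AlgFunc.one : (algLang P).Functions 0) Fin.elim0

theorem realize_trTerm {α γ : Type} {H : Type u} [CommRing H] [Algebra P H]
    (t : Language.ring.Term ((α ⊕ P) ⊕ γ)) (a : α → H) (xs : γ → H) :
    (trTerm P t).realize (Sum.elim a xs) = t.realize (Sum.elim (Sum.elim a (algebraMap P H)) xs) := by
  induction t with
  | var x =>
    rcases x with (x | c) | x
    · rfl
    · change c • (1 : H) = algebraMap P H c
      rw [Algebra.algebraMap_eq_smul_one]
    · rfl
  | func f ts ih =>
    cases f with
    | add =>
      change (trTerm P (ts 0)).realize _ + (trTerm P (ts 1)).realize _ = _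
      rw [ih, ih]
      rfl
    | mul =>
      change (trTerm P (ts 0)).realize _ * (trTerm P (ts 1)).realize _ = _
      rw [ih, ih]
      rfl
    | neg =>
      change (-1 : P) • (trTerm P (ts 0)).realize _ = _
      rw [ih, neg_smul, one_smul]
      rfl
    | zero => rfl
    | one => rfl

/-- A formula of the ring language with constants from `P`, as a formula in the signature of
`Com-P`. -/
def trFormula {α : Type} (φ : Language.ring.Formula (α ⊕ P)) : (algLang P).Formula α :=
  BoundedFormula.mapTermRel (g := id) (fun _ t => trTerm P t) (fun _ r => Empty.elim r)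
    (fun _ => id) φ

theorem realize_trFormula {α : Type} {H : Type u} [CommRing H] [Algebra P H]
    (φ : Language.ring.Formula (α ⊕ P)) (a : α → H) :
    (trFormula P φ).Realize a ↔ φ.Realize (Sum.elim a (algebraMap P H)) := by
  refine BoundedFormula.realize_mapTermRel_id ?_ ?_
  · intro n t xs
    exact realize_trTerm P t a xs
  · intro n r
    exact Empty.elim r

/-- Two tuples of polynomials with the same type in the signature of `Com-P` are conjugate under an
automorphism: numbered variables. -/
theorem main_fin (m n : ℕ) (a b : Fin n → MvPolynomial (Fin m) P)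
    (h : ∀ φ : (algLang P).Formula (Fin n), φ.Realize a ↔ φ.Realize b) :
    ∃ σ : MvPolynomial (Fin m) P ≃ₐ[P] MvPolynomial (Fin m) P, ∀ i, σ (a i) = b i := by
  refine Pool.Agent.LPU64.main P m n a b fun φ => ?_
  rw [← realize_trFormula, ← realize_trFormula]
  exact h _

end translation

/-- Two tuples of polynomials with the same type in the signature of `Com-P` are conjugate under an
automorphism: arbitrary finite sets of variables. -/
theorem main_finite (P : Type u) [Field P] (Y X : Type) [Finite Y] [Finite X]
    (a b : X → MvPolynomial Y P)
    (h : ∀ φ : (algLang P).Formula X, φ.Realize a ↔ φ.Realize b) :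
    ∃ σ : MvPolynomial Y P ≃ₐ[P] MvPolynomial Y P, ∀ i, σ (a i) = b i := by
  obtain ⟨m, ⟨eY⟩⟩ := Finite.exists_equiv_fin Y
  obtain ⟨n, ⟨eX⟩⟩ := Finite.exists_equiv_fin X
  let E : MvPolynomial Y P ≃ₐ[P] MvPolynomial (Fin m) P := renameEquiv P eY
  have h1 : ∀ φ : (algLang P).Formula (Fin n),
      φ.Realize (fun i => E (a (eX.symm i))) ↔ φ.Realize (fun i => E (b (eX.symm i))) := by
    intro φ
    rw [realize_iso E φ (fun i => a (eX.symm i)), realize_iso E φ (fun i => b (eX.symm i))]
    have h2 := h (φ.relabel eX.symm)
    rw [Formula.realize_relabel, Formula.realize_relabel] at h2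
    exact h2
  obtain ⟨σ, hσ⟩ := main_fin P m n _ _ h1
  refine ⟨(E.trans σ).trans E.symm, fun i => ?_⟩
  have h3 := hσ (eX i)
  simp only [Equiv.symm_apply_apply] at h3
  simp only [AlgEquiv.trans_apply, h3, AlgEquiv.symm_apply_apply]

/-- For every field `P` the variety `Com-P` is logically perfect. -/
theorem result (P : Type u) [Field P] : IsLogicallyPerfect P := by
  intro Y _ X _ μ ν
  constructor
  · intro h
    have h1 : ∀ φ : (algLang P).Formula X,
        φ.Realize (fun x => ν (MvPolynomial.X x)) ↔ φ.Realize (fun x => μ (MvPolynomial.X x)) := by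
      intro φ
      have h2 : φ ∈ LKer P (MvPolynomial Y P) μ ↔ φ ∈ LKer P (MvPolynomial Y P) ν := by rw [h]
      exact h2.symm
    obtain ⟨σ, hσ⟩ := main_finite P Y X _ _ h1
    refine ⟨σ, MvPolynomial.algHom_ext fun x => ?_⟩
    exact (hσ x).symm
  · rintro ⟨σ, rfl⟩
    ext φ
    exact realize_iso σ φ (fun x => ν (MvPolynomial.X x))

end Pool.Agent.Results.MP_1dfe91_lc.LogicallyPerfect
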